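import Pool.Agent.PSS.StmtsS5

/-!
# Squad PSS, row LQX: the local condition from the Brauer quotient
-/

namespace Pool.Agent.PSS.S5.H53

open Pool.Agent.PFC (tw IsTv Cz Lcq BK cj)
open Pool.Agent.PSS.S0 (IsBQ)

theorem cz_mem {F V A : Type} [Field F] [CommGroup V] [Ring A] [Algebra F A] (α : V →* A)
    (Q : Subgroup V) (a : A) (ha : a ∈ Cz F α Q) : a ∈ FxR (cw F α) Q := by
  intro h hh
  have h1 : α h * a = a * α h := ha (α h) ⟨h, hh, rfl⟩
  change α h * (a * α h⁻¹) = a
  rw [← mul_assoc, h1, mul_assoc, ← map_mul, mul_inv_cancel, map_one, mul_one]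

theorem mem_cz {F V A : Type} [Field F] [CommGroup V] [Ring A] [Algebra F A] (α : V →* A)
    (Q : Subgroup V) (a : A) (ha : a ∈ FxR (cw F α) Q) : a ∈ Cz F α Q := by
  rintro _ ⟨h, hh, rfl⟩
  have h1 : α h * (a * α h⁻¹) = a := ha h hh
  calc α h * a = α h * (a * α h⁻¹) * α h := by
        rw [mul_assoc (α h), mul_assoc a, ← map_mul, inv_mul_cancel, map_one, mul_one]
    _ = a * α h := by rw [h1]

theorem lqx : LqxStmt := by
  intro F V A B _ _ _ _ _ _ α Q αB β hb ⟨n, π, hn, hs, hnil, hc⟩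
  have hz : β 0 = 0 := by
    have h1 := hb.smul (0 : F) 0 (zero_mem _)
    rw [zero_smul, zero_smul] at h1
    exact h1
  have h1m : (1 : A) ∈ FxR (cw F α) Q := cz_mem α Q 1 (one_mem _)
  let f : Cz F α Q →ₐ[F] Matrix (Fin n) (Fin n) F :=
    { toFun := fun a => π (β a)
      map_one' := by
        change π (β 1) = 1
        rw [hb.one, map_one]
      map_mul' := fun a b => by
        change π (β ((a : A) * b)) = _
        rw [hb.mul _ (cz_mem α Q _ a.2) _ (cz_mem α Q _ b.2), map_mul]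
      map_zero' := by
        change π (β 0) = 0
        rw [hz, map_zero]
      map_add' := fun a b => by
        change π (β ((a : A) + b)) = _
        rw [hb.add _ (cz_mem α Q _ a.2) _ (cz_mem α Q _ b.2), map_add]
      commutes' := fun r => by
        change π (β (algebraMap F A r)) = _
        rw [Algebra.algebraMap_eq_smul_one, hb.smul r 1 h1m, hb.one, map_smul, map_one,
          Algebra.algebraMap_eq_smul_one] }
  refine ⟨n, f, hn, ?_, ?_, ?_, hc⟩
  · intro y
    obtain ⟨x, hx⟩ := hs y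
    obtain ⟨a, ha, hax⟩ := hb.surj x
    refine ⟨⟨a, mem_cz α Q a ha⟩, ?_⟩
    change π (β a) = y
    rw [hax, hx]
  · intro a ha
    have h2 : β a = 0 := (hb.ker _ (cz_mem α Q _ a.2)).2 ha
    change π (β a) = 0
    rw [h2, map_zero]
  · intro a ha
    obtain ⟨N, hN⟩ := hnil _ ha
    refine ⟨N, ?_⟩
    have h3 : ∀ k : ℕ, (a : A) ^ k ∈ FxR (cw F α) Q ∧ β ((a : A) ^ k) = (β a) ^ k := by
      intro k
      induction k with
      | zero => exact ⟨by rw [pow_zero]; exact h1m, by rw [pow_zero, pow_zero, hb.one]⟩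
      | succ k ih =>
        refine ⟨?_, ?_⟩
        · have h4 : ((a ^ (k + 1) : Cz F α Q) : A) ∈ FxR (cw F α) Q := cz_mem α Q _ (a ^ (k + 1)).2
          exact h4
        · rw [pow_succ, pow_succ, hb.mul _ ih.1 _ (cz_mem α Q _ a.2), ih.2]
    have h5 := (h3 N).2
    rw [hN] at h5
    exact (hb.ker _ (h3 N).1).1 h5

end Pool.Agent.PSS.S5.H53
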